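import Pool.Agent.Helper96.EL.Goals

/-!
# MP_e44225_nt, project EL, packet PIGI: colouring at an infinite place
-/

set_option autoImplicit false

open NumberField

namespace Pool.Agent.Helper36.EL

open Pool.Agent.Helper96.EL

universe u

/-- the colour of `t` -/
noncomputable def gam (n : ℕ) (hn : 1 ≤ n) (R t : ℝ) : Fin n :=
  ⟨min (n - 1) ⌊(n : ℝ) * (t + R) / (2 * R)⌋₊, lt_of_le_of_lt (min_le_left _ _) (by omega)⟩

theorem floor_aux {n : ℕ} (hn : 1 ≤ n) {s : ℝ} (h0 : 0 ≤ s) (h1 : s ≤ n) :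
    ((min (n - 1) ⌊s⌋₊ : ℕ) : ℝ) ≤ s ∧ s ≤ ((min (n - 1) ⌊s⌋₊ : ℕ) : ℝ) + 1 := by
  constructor
  · have h2 : ((min (n - 1) ⌊s⌋₊ : ℕ) : ℝ) ≤ (⌊s⌋₊ : ℝ) := by
      exact_mod_cast min_le_right _ _
    exact h2.trans (Nat.floor_le h0)
  · rcases le_total (n - 1) ⌊s⌋₊ with h | h
    · rw [min_eq_left h]
      have h3 : ((n - 1 : ℕ) : ℝ) + 1 = n := by
        have : n - 1 + 1 = n := by omega
        exact_mod_cast this
      rw [h3]
      exact h1
    · rw [min_eq_right h]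
      exact (Nat.lt_floor_add_one s).le

theorem gam_eq {n : ℕ} (hn : 1 ≤ n) {R t t' : ℝ} (hR : 0 < R) (ht : |t| ≤ R) (ht' : |t'| ≤ R)
    (h : gam n hn R t = gam n hn R t') : |t - t'| ≤ 2 * R / n := by
  have hn' : (0 : ℝ) < n := by exact_mod_cast hn
  have hs : ∀ t : ℝ, |t| ≤ R → 0 ≤ (n : ℝ) * (t + R) / (2 * R) ∧
      (n : ℝ) * (t + R) / (2 * R) ≤ n := by
    intro t ht
    obtain ⟨h1, h2⟩ := abs_le.1 ht
    constructor
    · have : 0 ≤ t + R := by linarith
      positivity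
    · rw [div_le_iff₀ (by positivity)]
      exact mul_le_mul_of_nonneg_left (by linarith) hn'.le
  obtain ⟨a1, a2⟩ := hs t ht
  obtain ⟨b1, b2⟩ := hs t' ht'
  obtain ⟨c1, c2⟩ := floor_aux hn a1 a2
  obtain ⟨d1, d2⟩ := floor_aux hn b1 b2
  have h3 : min (n - 1) ⌊(n : ℝ) * (t + R) / (2 * R)⌋₊ =
      min (n - 1) ⌊(n : ℝ) * (t' + R) / (2 * R)⌋₊ := congrArg Fin.val h
  rw [h3] at c1 c2
  have h4 : |(n : ℝ) * (t + R) / (2 * R) - (n : ℝ) * (t' + R) / (2 * R)| ≤ 1 := by
    rw [abs_le]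
    constructor <;> linarith
  have h5 : (n : ℝ) * (t + R) / (2 * R) - (n : ℝ) * (t' + R) / (2 * R) =
      (t - t') * (n / (2 * R)) := by ring
  rw [h5, abs_mul, abs_of_pos (show (0 : ℝ) < n / (2 * R) by positivity), ← le_div_iff₀
    (by positivity), one_div_div] at h4
  exact h4

theorem pigi : PIGI.{u} := by
  intro k _ _ w R
  by_cases hR : R ≤ 0
  · refine ⟨1, one_pos, fun N hN => ⟨fun _ => ⟨0, by omega⟩, fun x x' hx hx' _ => ?_⟩⟩
    have h1 : ∀ y : k, w y ≤ R → y = 0 := by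
      intro y hy
      have h2 : w y = 0 := le_antisymm (hy.trans hR) (apply_nonneg w y)
      exact (map_eq_zero w).1 h2
    rw [h1 x hx, h1 x' hx', sub_zero, map_zero]
    have h3 : w.mult ≠ 0 := by
      rcases w.isReal_or_isComplex with h | h
      · rw [h.mult_eq_one]
        norm_num
      · rw [h.mult_eq_two]
        norm_num
    rw [zero_pow h3]
    positivity
  push Not at hR
  rcases w.isReal_or_isComplex with hw | hw
  · refine ⟨2 * R, by positivity, fun N hN =>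
      ⟨fun x => gam N hN R (InfinitePlace.embedding_of_isReal hw x), fun x x' hx hx' h => ?_⟩⟩
    rw [hw.mult_eq_one, pow_one]
    rw [← InfinitePlace.norm_embedding_of_isReal hw] at hx hx' ⊢
    rw [Real.norm_eq_abs] at hx hx' ⊢
    rw [map_sub]
    exact gam_eq hN hR hx hx' h
  · refine ⟨32 * R ^ 2, by positivity, fun N hN => ?_⟩
    have hn : 1 ≤ Nat.sqrt N := Nat.le_sqrt.2 (by omega)
    have hnN : Nat.sqrt N * Nat.sqrt N ≤ N := Nat.sqrt_le N
    refine ⟨fun x => Fin.castLE hnN (finProdFinEquiv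
      (gam (Nat.sqrt N) hn R (w.embedding x).re, gam (Nat.sqrt N) hn R (w.embedding x).im)),
      fun x x' hx hx' h => ?_⟩
    have h1 := finProdFinEquiv.injective (Fin.castLE_injective hnN h)
    obtain ⟨h2, h3⟩ := Prod.mk.inj h1
    rw [← InfinitePlace.norm_embedding_eq] at hx hx' ⊢
    have h4 := gam_eq hn hR ((Complex.abs_re_le_norm _).trans hx)
      ((Complex.abs_re_le_norm _).trans hx') h2
    have h5 := gam_eq hn hR ((Complex.abs_im_le_norm _).trans hx)
      ((Complex.abs_im_le_norm _).trans hx') h3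
    rw [hw.mult_eq_two, map_sub, Complex.sq_norm, Complex.normSq_apply, Complex.sub_re,
      Complex.sub_im]
    have hn' : (0 : ℝ) < Nat.sqrt N := by exact_mod_cast hn
    have hN' : (0 : ℝ) < N := by exact_mod_cast hN
    have h6 := abs_le.1 h4
    have h7 := abs_le.1 h5
    have h8 : ((w.embedding x).re - (w.embedding x').re) *
        ((w.embedding x).re - (w.embedding x').re) ≤ (2 * R / Nat.sqrt N) ^ 2 := by nlinarith
    have h9 : ((w.embedding x).im - (w.embedding x').im) *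
        ((w.embedding x).im - (w.embedding x').im) ≤ (2 * R / Nat.sqrt N) ^ 2 := by nlinarith
    have h10 : 2 * (2 * R / Nat.sqrt N) ^ 2 ≤ 32 * R ^ 2 / N := by
      have h11 : N < (Nat.sqrt N + 1) * (Nat.sqrt N + 1) := Nat.lt_succ_sqrt N
      have h12 : (N : ℝ) ≤ 4 * (Nat.sqrt N : ℝ) ^ 2 := by
        have h13 : N ≤ 4 * Nat.sqrt N ^ 2 := by nlinarith
        exact_mod_cast h13
      rw [div_pow, le_div_iff₀ hN']
      have h14 : 2 * ((2 * R) ^ 2 / (Nat.sqrt N : ℝ) ^ 2) * N =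
          8 * R ^ 2 * (N / (Nat.sqrt N : ℝ) ^ 2) := by ring
      rw [h14]
      have h15 : (N : ℝ) / (Nat.sqrt N : ℝ) ^ 2 ≤ 4 := by
        rw [div_le_iff₀ (by positivity)]
        exact h12
      have h16 : 0 ≤ 8 * R ^ 2 := by positivity
      nlinarith
    linarith

end Pool.Agent.Helper36.EL
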